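import Mathlib
import Pool.Agent.H37.OH.Fin

/-!
For almost all `n`, every collineation of prime power order of every projective plane of order `n`
has an odd number of fixed points.
-/

set_option autoImplicit false

open Configuration

namespace Pool.Agent.Results.MP_5bfab0_co.OddFixedPoints

/-- Some projective plane of order `n` has a collineation `f` (with action `g` on the lines) whose
order is a power of a prime `q` and which has an even number of fixed points. -/
def HasEven (n : ℕ) : Prop :=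
  ∃ (P L : Type) (_ : Membership P L) (_ : Finite P) (_ : Finite L) (_ : ProjectivePlane P L),
    ProjectivePlane.order P L = n ∧
    ∃ (f : Equiv.Perm P) (g : Equiv.Perm L) (q k : ℕ), q.Prime ∧ f ^ (q ^ k) = 1 ∧
      (∀ (p : P) (l : L), f p ∈ g l ↔ p ∈ l) ∧ Even (Nat.card {p // f p = p})

/-- At most `C x (log log x) ^ (3 / 2) / (log x) ^ (1 / 2)` integers `n ≤ x` have the property
`HasEven`. -/
theorem result : ∃ C : ℝ, 0 < C ∧ ∀ x : ℕ, 16 ≤ x →
    ((Set.ncard {n : ℕ | n ≤ x ∧ HasEven n} : ℕ) : ℝ) ≤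
      C * x * Real.log (Real.log x) ^ (3 / 2 : ℝ) / Real.log x ^ (1 / 2 : ℝ) := by
  classical
  obtain ⟨C, hC, h⟩ := Pool.Agent.H37.OH.even_rate
  refine ⟨C, hC, fun x hx => ?_⟩
  have h1 : {n : ℕ | n ≤ x ∧ HasEven n} =
      (((Finset.range (x + 1)).filter HasEven : Finset ℕ) : Set ℕ) := by
    ext n
    simp only [Finset.coe_filter, Finset.mem_range, Set.mem_ofPred_eq, Nat.lt_succ_iff]
  rw [h1, Set.ncard_coe_finset]
  refine h x hx _ fun n hn => ?_
  obtain ⟨h2, P, L, _, _, _, _, h3, f, g, q, k, hq, hf, hmem, hev⟩ := Finset.mem_filter.1 hn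
  obtain ⟨h4, h5, h6⟩ := Pool.Agent.H12.FO.even_fixed P L f g hmem q k hq hf n h3 hev
  exact ⟨Nat.lt_succ_iff.1 (Finset.mem_range.1 h2), q, h4, hq, h5, h6⟩

end Pool.Agent.Results.MP_5bfab0_co.OddFixedPoints
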