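import Mathlib
import Pool.Agent.H12.ST.Fin
import Pool.Agent.H3.PO.Main
import Pool.Agent.H37.MT.Fin
import Pool.Agent.H37.TR.Main

/-!
Mann's test for finite projective planes with a point-transitive group of collineations which is soluble or contains an
involution (by the Feit-Thompson theorem: every point-transitive group), and the integers `m` for which `|f m|` passes the test,
`f` a polynomial with integer coefficients: all of them if `f` is plus or minus a square, otherwise at most
`A Y / (log Y) ^ δ` in every interval of length `Y`, with `δ = 1` if `f` is not a constant times a square.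
-/

set_option autoImplicit false

open Configuration Polynomial

namespace Pool.Agent.Results.MP_5bfab0_co.PointTransitive

/-- The plane admits a group of collineations which is transitive on the points, and which is soluble or contains an element
that acts as an involution on the points. -/
def HasTransitive (P L : Type) [Membership P L] : Prop :=
  ∃ (G : Type) (_ : Group G) (_ : MulAction G P) (_ : MulAction G L),
    (Group.IsSolvable G ∨ ∃ g : G, (∃ p : P, g • p ≠ p) ∧ ∀ p : P, g • g • p = p) ∧
      (∀ (g : G) (p : P) (l : L), g • p ∈ g • l ↔ p ∈ l) ∧ ∀ p q : P, ∃ g : G, g • p = q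

/-- Every prime with odd exponent in `n` has odd order modulo every prime with odd exponent in
`n² + n + 1`. -/
def MannCondition (n : ℕ) : Prop :=
  ∀ p q : ℕ, p.Prime → q.Prime → Odd (padicValNat p n) → Odd (padicValNat q (n ^ 2 + n + 1)) →
    Odd (orderOf (p : ZMod q))

/-- The orders of the finite projective planes with a point-transitive group of collineations, soluble or with an involution,
satisfy Mann's condition. Let `f` be a polynomial with integer coefficients. If `f` is
plus or minus the square of a polynomial, all `|f m|` satisfy the condition. If `f` is neither this nor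
constant, then there are `A` and `δ > 0` such that in each interval `(M, M + Y]`, `Y ≥ 2`, at most `A Y / (log Y) ^ δ` integers `m`
have this property; and `δ = 1` if `f` is not of the form `c g ^ 2`, `c` an integer. -/
theorem result :
    (∀ (P L : Type) [Membership P L] [Finite P] [Finite L] [ProjectivePlane P L],
      HasTransitive P L → MannCondition (ProjectivePlane.order P L)) ∧
    (∀ f g : ℤ[X], f = g ^ 2 ∨ f = -g ^ 2 → ∀ m : ℤ, MannCondition (f.eval m).natAbs) ∧
    (∀ f : ℤ[X], 1 ≤ f.natDegree → (∀ g : ℤ[X], f ≠ g ^ 2 ∧ f ≠ -g ^ 2) →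
      ∃ A δ : ℝ, 0 < A ∧ 0 < δ ∧ ((∀ (c : ℤ) (g : ℤ[X]), f ≠ C c * g ^ 2) → δ = 1) ∧
        ∀ Y : ℕ, 2 ≤ Y → ∀ M : ℤ,
          ((Set.ncard {m : ℤ | M < m ∧ m ≤ M + Y ∧ MannCondition (f.eval m).natAbs} : ℕ) : ℝ) ≤
            A * Y / Real.log Y ^ δ) := by
  refine ⟨?_, ?_, ?_⟩
  · rintro P L _ _ _ _ ⟨G, _, _, _, hs | ⟨g, h1, h2⟩, hm, ht⟩
    · exact Pool.Agent.H12.ST.mannGood_of_solTrans ⟨G, _, _, _, hs, hm, ⟨ht⟩⟩
    · exact Pool.Agent.H37.TR.even_mann G hm ht h1 h2
  · intro f g hf m
    exact Pool.Agent.H3.PO.mann_sq g f hf m
  · intro f hf1 hf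
    exact Pool.Agent.H37.MT.mann_rate f hf1 hf

end Pool.Agent.Results.MP_5bfab0_co.PointTransitive
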