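import Mathlib
import Pool.Agent.H12.ST.Fin
import Pool.Agent.H12.SG.Sin
import Pool.Agent.H37.TR.Main

/-!
Finite projective planes of order `n` with a point-transitive group of collineations. If the group
is soluble and `N = n² + n + 1` is squarefree, the incidence matrix is block-circulant, and often
circulant. If the group is soluble and `gcd(N, φ(N)) = 1`, or if it has an involution and `n` is no
square, there is a cyclic plane of order `n`.
-/

set_option autoImplicit false

open Configuration

namespace Pool.Agent.Results.MP_5bfab0_co.SolubleCirculant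

/-- The plane is cyclic: points and lines are labelled by `ZMod (n² + n + 1)` so that the
incidence matrix is circulant. -/
def Cyclic (P L : Type) [Membership P L] (n : ℕ) : Prop :=
  ∃ (f : P ≃ ZMod (n ^ 2 + n + 1)) (g : L ≃ ZMod (n ^ 2 + n + 1))
    (D : Set (ZMod (n ^ 2 + n + 1))), ∀ (p : P) (l : L), p ∈ l ↔ f p - g l ∈ D

/-- There is a cyclic projective plane of order `n`. -/
def CyclicOrder (n : ℕ) : Prop :=
  ∃ (P L : Type) (_ : Membership P L) (_ : Finite P) (_ : Finite L) (_ : ProjectivePlane P L),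
    ProjectivePlane.order P L = n ∧ Cyclic P L n

/-- The incidence matrix is a `k × k` array of circulant matrices of size `m`. -/
def BlockCirculant (P L : Type) [Membership P L] (k m : ℕ) : Prop :=
  ∃ (f : P ≃ Fin k × ZMod m) (g : L ≃ Fin k × ZMod m) (D : Fin k → Fin k → Set (ZMod m)),
    ∀ (p : P) (l : L), p ∈ l ↔ (f p).2 - (g l).2 ∈ D (f p).1 (g l).1

/-- Let a group `G` act by collineations, transitively on the points, on a finite projective plane
of order `n`; `N = n² + n + 1`. (1) There is a cyclic plane of order `n` if `G` is soluble and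
`gcd(N, φ(N)) = 1`, and if some element of `G` acts on the points as an involution and `n` is no
square. (2) If `G` is soluble and `N` is squarefree, then for some `k` which divides `gcd(N, φ(N))`
the incidence matrix is, with a suitable labelling, a `k × k` array of circulant matrices of size
`N/k`; and the plane is cyclic if `gcd(N, φ(N)) = 1` or `G` is nilpotent. -/
theorem result (P L : Type) [Membership P L] [Finite P] [Finite L] [ProjectivePlane P L] (n : ℕ)
    (hn : ProjectivePlane.order P L = n) (G : Type) [Group G] [MulAction G P] [MulAction G L]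
    (hmem : ∀ (g : G) (p : P) (l : L), g • p ∈ g • l ↔ p ∈ l)
    (htr : ∀ p q : P, ∃ g : G, g • p = q) :
    ((Group.IsSolvable G ∧ Nat.gcd (n ^ 2 + n + 1) (Nat.totient (n ^ 2 + n + 1)) = 1) ∨
      ((∃ g : G, (∃ p : P, g • p ≠ p) ∧ ∀ p : P, g • g • p = p) ∧ ¬ IsSquare n) →
        CyclicOrder n) ∧
    (Group.IsSolvable G → Squarefree (n ^ 2 + n + 1) →
      (∃ k m : ℕ, k * m = n ^ 2 + n + 1 ∧
        k ∣ Nat.gcd (n ^ 2 + n + 1) (Nat.totient (n ^ 2 + n + 1)) ∧ BlockCirculant P L k m) ∧
      (Nat.gcd (n ^ 2 + n + 1) (Nat.totient (n ^ 2 + n + 1)) = 1 ∨ Group.IsNilpotent G →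
        Cyclic P L n)) := by
  subst hn
  refine ⟨?_, fun hsol hsq => ⟨?_, ?_⟩⟩
  · rintro (⟨hsol, h⟩ | ⟨⟨g, h1, h2⟩, hn⟩)
    · exact ⟨P, L, _, inferInstance, inferInstance, inferInstance, rfl,
        Pool.Agent.H12.ST.cyc_of_solTrans ⟨G, _, _, _, hsol, hmem, ⟨htr⟩⟩ h⟩
    · obtain ⟨p, k, hp, hk⟩ := Pool.Agent.H37.TR.even_trans G hmem htr h1 h2 hn
      have hk0 : k ≠ 0 := by
        rintro rfl
        have h3 := ProjectivePlane.one_lt_order P L
        rw [hk, pow_zero] at h3
        omega
      rw [hk]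
      exact Pool.Agent.H12.SG.singer hp hk0
  · exact Pool.Agent.H12.ST.block_of_solTrans ⟨G, _, _, _, hsol, hmem, ⟨htr⟩⟩ hsq
  · rintro (h | h)
    · exact Pool.Agent.H12.ST.cyc_of_solTrans ⟨G, _, _, _, hsol, hmem, ⟨htr⟩⟩ h
    · exact Pool.Agent.H12.ST.cyc_of_nilTrans ⟨G, _, _, _, h, hmem, ⟨htr⟩⟩ hsq

end Pool.Agent.Results.MP_5bfab0_co.SolubleCirculant
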