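import Mathlib
import Pool.Agent.H12.SQ.Main
import Pool.Agent.H37.TR.Main

/-!
Finite projective planes with a point-transitive group of collineations which is soluble or has an
involution: among the orders `n ≤ x` with `n` and `n² + n + 1` squarefree at most
`C x / (log x)^(5/4)` are not primes.
-/

set_option autoImplicit false

open Configuration

namespace Pool.Agent.Results.MP_5bfab0_co.SquarefreeOrders

/-- The plane admits a group of collineations which is transitive on the points, and which is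
soluble or has an element which acts on the points as an involution. -/
def HasTransitive (P L : Type) [Membership P L] : Prop :=
  ∃ (G : Type) (_ : Group G) (_ : MulAction G P) (_ : MulAction G L),
    (Group.IsSolvable G ∨ ∃ g : G, (∃ p : P, g • p ≠ p) ∧ ∀ p : P, g • g • p = p) ∧
      (∀ (g : G) (p : P) (l : L), g • p ∈ g • l ↔ p ∈ l) ∧ ∀ p q : P, ∃ g : G, g • p = q

/-- `n` is the order of a finite projective plane with `HasTransitive`. -/
def TransitiveOrder (n : ℕ) : Prop :=
  ∃ (P L : Type) (_ : Membership P L) (_ : Finite P) (_ : Finite L) (_ : ProjectivePlane P L),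
    HasTransitive P L ∧ ProjectivePlane.order P L = n

/-- Almost all orders `n` of planes with `HasTransitive`, with `n` and `n² + n + 1` squarefree, are
primes. -/
theorem result : ∃ C : ℝ, 0 < C ∧ ∀ x : ℕ, 2 ≤ x →
    ((Set.ncard {n : ℕ | n ≤ x ∧ TransitiveOrder n ∧ Squarefree n ∧ Squarefree (n ^ 2 + n + 1) ∧
      ¬ n.Prime} : ℕ) : ℝ) ≤ C * x / Real.log x ^ (5 / 4 : ℝ) := by
  classical
  obtain ⟨C, hC, h⟩ := Pool.Agent.H12.SQ.power_savingT
  refine ⟨C, hC, fun x hx => ?_⟩
  refine le_trans ?_ (h x hx)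
  rw [Nat.cast_le, ← Set.ncard_coe_finset]
  refine Set.ncard_le_ncard ?_ (Finset.finite_toSet _)
  rintro n ⟨hnx, ⟨P, L, _, _, _, _, ⟨G, _, _, _, hG, hm, ht⟩, hn⟩, hs1, hs2, hp⟩
  have h2 := ProjectivePlane.one_lt_order P L
  subst hn
  rcases hG with hs | ⟨g, hg1, hg2⟩
  · have hsol : Pool.Agent.H12.ST.SolTrans P L := ⟨G, _, _, _, hs, hm, ⟨ht⟩⟩
    rw [Finset.mem_coe, Finset.mem_filter, Finset.mem_Icc]
    exact ⟨⟨h2, hnx⟩, ⟨Pool.Agent.H12.SQ.goodT_of_solTrans hsol hs1 hs2,
      fun h => Pool.Agent.H12.SQ.isOrder_of_prime hsol h⟩, hp⟩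
  · exfalso
    have hsq : ¬ IsSquare (ProjectivePlane.order P L) := by
      rintro ⟨m, hm'⟩
      have h3 := Nat.isUnit_iff.1 (hs1 m (Dvd.intro 1 (by rw [mul_one, hm'])))
      rw [hm', h3] at h2
      omega
    obtain ⟨p, k, hpp, hk⟩ := Pool.Agent.H37.TR.even_trans G hm ht hg1 hg2 hsq
    have hk1 : k = 1 := by
      rw [hk] at hs1
      rcases Nat.lt_or_ge k 2 with hk2 | hk2
      · have : k ≠ 0 := by
          rintro rfl
          rw [hk, pow_zero] at h2
          omega
        omega
      · exfalso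
        have h4 := hs1 p (by
          rw [← pow_two]
          exact pow_dvd_pow p hk2)
        exact hpp.one_lt.ne' (Nat.isUnit_iff.1 h4)
    rw [hk, hk1, pow_one] at hp
    exact hp hpp

end Pool.Agent.Results.MP_5bfab0_co.SquarefreeOrders
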